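import Pool.Agent.Q9.QuatUnits

open Quaternion Q9.Quat

namespace Pool.Agent.Results.MP_aafbbc_al.QuaternionUnits

/-- `G` is the unit group of a finite ring of characteristic `n`. -/
def Realizable (G : Type) [Group G] (n : ℕ) : Prop :=
  ∃ (R : Type) (_ : Ring R) (_ : Finite R) (_ : CharP R n), Nonempty (Rˣ ≃* G)

/-- `G` is not a direct product of two nontrivial groups. -/
def Indecomposable (G : Type) [Group G] : Prop :=
  ∀ (A B : Type) [Group A] [Group B], Nonempty (G ≃* A × B) → Subsingleton A ∨ Subsingleton B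

/-! ### Indecomposability -/

theorem not_comm_factor (A B : Type) [Group A] [Group B] (e : Hˣ ≃* A × B)
    (hB : ∀ b b' : B, b * b' = b' * b) : Subsingleton B := by
  by_contra hne
  rw [not_subsingleton_iff_nontrivial] at hne
  -- every element of `B` is a square
  have h1 : ∀ g ∈ Sq, ∃ b : B, (e g).2 = b * b := by
    intro g hg
    induction hg using Subgroup.closure_induction with
    | mem x hx =>
      obtain ⟨h, rfl⟩ := hx
      exact ⟨(e h).2, by rw [map_mul]; rfl⟩
    | one => exact ⟨1, by rw [map_one]; simp⟩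
    | mul x y _ _ hx hy =>
      obtain ⟨b, hb⟩ := hx
      obtain ⟨b', hb'⟩ := hy
      refine ⟨b * b', ?_⟩
      rw [map_mul, Prod.snd_mul, hb, hb', mul_assoc, mul_assoc]
      congr 1
      rw [← mul_assoc, hB b b', mul_assoc, hB b b']
    | inv x _ hx =>
      obtain ⟨b, hb⟩ := hx
      refine ⟨b⁻¹, ?_⟩
      rw [map_inv, Prod.snd_inv, hb, mul_inv_rev]
  have h2 : Function.Surjective fun b : B => b * b := by
    intro b
    have hc : e.symm (1, b) ∈ Sq := by
      apply center_le
      intro h
      apply e.injective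
      rw [map_mul, map_mul, MulEquiv.apply_symm_apply]
      ext
      · simp
      · exact hB _ _
    obtain ⟨b', hb'⟩ := h1 _ hc
    rw [MulEquiv.apply_symm_apply] at hb'
    exact ⟨b', hb'.symm⟩
  have hfin : Finite (A × B) := Finite.of_equiv _ e.toEquiv
  have hfinB : Finite B := Finite.of_surjective (fun x : A × B => x.2) Prod.snd_surjective
  have h3 := Finite.injective_iff_surjective.2 h2
  have hcard : Nat.card B ∣ 2 ^ 31 := by
    rw [← card_units, Nat.card_congr e.toEquiv, Nat.card_prod]
    exact dvd_mul_left _ _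
  obtain ⟨r, -, hr⟩ := (Nat.dvd_prime_pow Nat.prime_two).1 hcard
  have h4 : 2 ∣ Nat.card B := by
    rcases Nat.eq_zero_or_pos r with h | h
    · rw [h, pow_zero] at hr
      have := Finite.one_lt_card (α := B)
      omega
    · rw [hr]
      exact dvd_pow_self 2 h.ne'
  obtain ⟨b, hb⟩ := exists_prime_orderOf_dvd_card' 2 h4
  have h5 : b * b = 1 * 1 := by
    rw [← pow_two, ← hb, pow_orderOf_eq_one, one_mul]
  have h6 : b = 1 := h3 h5
  rw [h6, orderOf_one] at hb
  omega

theorem ev_of_noncomm (A B : Type) [Group A] [Group B] (e : Hˣ ≃* A × B)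
    (hB : ¬ ∀ b b' : B, b * b' = b' * b) (a : A) : Ev ((e.symm (a, 1) : Hˣ) : H) := by
  by_contra hcon
  apply hB
  intro b b'
  have hcomm : ∀ b : B, (e.symm (a, 1) : Hˣ) * e.symm (1, b) = e.symm (1, b) * e.symm (a, 1) := by
    intro b
    rw [← map_mul, ← map_mul]
    simp
  have h1 := centralizer_comm hcon (congrArg Units.val (hcomm b)) (congrArg Units.val (hcomm b'))
  have h2 : e.symm (1, b) * e.symm (1, b') = e.symm (1, b') * e.symm (1, b) := Units.ext h1
  rw [← map_mul, ← map_mul] at h2
  have h3 := e.symm.injective h2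
  exact congrArg Prod.snd h3

theorem indecomposable : Indecomposable Hˣ := by
  rintro A B _ _ ⟨e⟩
  by_cases hB : ∀ b b' : B, b * b' = b' * b
  · exact Or.inr (not_comm_factor A B e hB)
  by_cases hA : ∀ a a' : A, a * a' = a' * a
  · exact Or.inl (not_comm_factor B A (e.trans MulEquiv.prodComm) hA)
  exfalso
  have h1 : Ev ((e.symm ((e iU).1, 1) : Hˣ) : H) := ev_of_noncomm A B e hB _
  have h2 : Ev ((e.symm (1, (e iU).2) : Hˣ) : H) :=
    ev_of_noncomm B A (e.trans MulEquiv.prodComm) hA (e iU).2
  have h3 := Ev_mul h1 h2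
  rw [← Units.val_mul, ← map_mul] at h3
  have h4 : (((e iU).1, 1) * (1, (e iU).2) : A × B) = e iU := by
    ext <;> simp
  rw [h4, MulEquiv.symm_apply_apply] at h3
  have h5 : c 1 = 0 := h3.1
  rw [map_one] at h5
  exact one_ne_zero h5

/-! ### Not realizable in characteristic two -/

theorem card_units_ge {R : Type} [Ring R] [Finite R] (x : R) (n : ℕ) (hx : x ^ n ≠ 0)
    (hnil : IsNilpotent x) : 2 ^ n ≤ Nat.card Rˣ := by
  classical
  set N := nilpotencyClass x with hN
  have hxN : x ^ N = 0 := pow_nilpotencyClass hnil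
  have hxk : ∀ k, N ≤ k → x ^ k = 0 := fun k hk => by
    rw [← Nat.add_sub_of_le hk, pow_add, hxN, zero_mul]
  have hnN : n < N := by
    by_contra h
    exact hx (hxk n (by omega))
  have hnt : Nontrivial R := ⟨⟨_, _, hx⟩⟩
  have hx1 : x ^ (N - 1) ≠ 0 := pow_pred_nilpotencyClass hnil
  let S : Finset (Fin n) → R := fun s => ∑ i : Fin n, if i ∈ s then x ^ ((i : ℕ) + 1) else 0
  have hinj : Function.Injective S := by
    intro s t hst
    have key : ∀ m : ℕ, ∀ j : Fin n, (j : ℕ) = m → (j ∈ s ↔ j ∈ t) := by
      intro m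
      induction m using Nat.strong_induction_on with
      | _ m ih =>
        intro j hj
        have h0 : ∑ i : Fin n, ((if i ∈ s then x ^ ((i : ℕ) + 1) else 0) -
            (if i ∈ t then x ^ ((i : ℕ) + 1) else 0)) * x ^ (N - 2 - j) = 0 := by
          rw [← Finset.sum_mul, Finset.sum_sub_distrib, sub_eq_zero.2 hst, zero_mul]
        rw [Finset.sum_eq_single j] at h0
        · have e1 : x ^ ((j : ℕ) + 1) * x ^ (N - 2 - j) = x ^ (N - 1) := by
            rw [← pow_add]
            congr 1
            have := j.2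
            omega
          by_cases h1 : j ∈ s <;> by_cases h2 : j ∈ t
          · exact ⟨fun _ => h2, fun _ => h1⟩
          · rw [if_pos h1, if_neg h2, sub_zero, e1] at h0
            exact absurd h0 hx1
          · rw [if_neg h1, if_pos h2, zero_sub, neg_mul, e1, neg_eq_zero] at h0
            exact absurd h0 hx1
          · exact ⟨fun h => absurd h h1, fun h => absurd h h2⟩
        · intro i _ hij
          rcases lt_or_gt_of_ne (fun h : (i : ℕ) = j => hij (Fin.ext h)) with hlt | hgt
          · have h1 := ih i (by omega) i rfl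
            by_cases h2 : i ∈ s
            · rw [if_pos h2, if_pos (h1.1 h2), sub_self, zero_mul]
            · rw [if_neg h2, if_neg (fun h => h2 (h1.2 h)), sub_self, zero_mul]
          · have e2 : x ^ ((i : ℕ) + 1) * x ^ (N - 2 - j) = 0 := by
              rw [← pow_add]
              exact hxk _ (by omega)
            rw [sub_mul, ite_mul, ite_mul, e2, zero_mul, ite_self, ite_self, sub_zero]
        · intro h
          exact absurd (Finset.mem_univ j) h
    ext j
    exact key j j rfl
  have hnilS : ∀ s, IsNilpotent (S s) := by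
    intro s
    have h1 : S s = x * ∑ i : Fin n, if i ∈ s then x ^ (i : ℕ) else 0 := by
      rw [Finset.mul_sum]
      refine Finset.sum_congr rfl fun i _ => ?_
      rw [mul_ite, mul_zero, pow_succ']
    have h2 : Commute x (∑ i : Fin n, if i ∈ s then x ^ (i : ℕ) else 0) := by
      refine Commute.sum_right _ _ _ fun i _ => ?_
      split_ifs
      · exact Commute.pow_right (Commute.refl x) _
      · exact Commute.zero_right x
    rw [h1]
    exact h2.isNilpotent_mul_right hnil
  let T : Finset (Fin n) → Rˣ := fun s => (hnilS s).isUnit_one_add.unit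
  have hT : Function.Injective T := by
    intro s t hst
    apply hinj
    have h1 : (1 : R) + S s = 1 + S t := congrArg Units.val hst
    exact add_left_cancel h1
  have h1 := Nat.card_le_card_of_injective T hT
  rwa [Nat.card_eq_fintype_card, Fintype.card_finset, Fintype.card_fin] at h1

theorem five_unit : IsUnit (5 : ZMod 256) := by
  rw [isUnit_iff_c]
  decide

theorem not_realizable : ¬ Realizable Hˣ 2 := by
  rintro ⟨R, _, _, _, ⟨f⟩⟩
  have hprime : Fact (Nat.Prime 2) := ⟨Nat.prime_two⟩
  obtain ⟨a, ha⟩ := five_unit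
  let s : Hˣ := Units.map (algebraMap (ZMod 256) H).toMonoidHom a
  have hs : (s : H) = algebraMap (ZMod 256) H 5 := by
    change algebraMap (ZMod 256) H a = _
    rw [ha]
  have h64 : s ^ 64 = 1 := by
    apply Units.ext
    rw [Units.val_pow_eq_pow_val, hs, ← map_pow, Units.val_one]
    have : (5 : ZMod 256) ^ 64 = 1 := by decide +kernel
    rw [this, map_one]
  have h32 : s ^ 32 ≠ 1 := by
    intro h
    have h1 := congrArg Units.val h
    rw [Units.val_pow_eq_pow_val, hs, ← map_pow, Units.val_one] at h1
    have h2 : (5 : ZMod 256) ^ 32 = 129 := by decide +kernel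
    rw [h2, ← map_one (algebraMap (ZMod 256) H)] at h1
    have h3 : (129 : ZMod 256) = 1 := Quaternion.coe_injective h1
    revert h3
    decide
  let u : Rˣ := f.symm s
  have hu64 : u ^ 64 = 1 := by rw [← map_pow, h64, map_one]
  have hu32 : u ^ 32 ≠ 1 := by
    intro h
    apply h32
    apply f.symm.injective
    rw [map_pow, map_one]
    exact h
  have hcomm : Commute (u : R) 1 := Commute.one_right _
  have hx64 : ((u : R) - 1) ^ 64 = 0 := by
    have h1 := sub_pow_char_pow_of_commute (p := 2) (n := 6) hcomm
    rw [one_pow] at h1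
    norm_num at h1
    rw [h1, ← Units.val_pow_eq_pow_val, hu64, Units.val_one, sub_self]
  have hx32 : ((u : R) - 1) ^ 32 ≠ 0 := by
    have h1 := sub_pow_char_pow_of_commute (p := 2) (n := 5) hcomm
    rw [one_pow] at h1
    norm_num at h1
    rw [h1, ← Units.val_pow_eq_pow_val, sub_ne_zero]
    intro h
    exact hu32 (Units.ext h)
  have h1 := card_units_ge ((u : R) - 1) 32 hx32 ⟨64, hx64⟩
  rw [Nat.card_congr f.toEquiv, card_units] at h1
  norm_num at h1

theorem realizable : Realizable Hˣ (2 ^ 8) := by
  refine ⟨H, inferInstance, inferInstance, ?_, ⟨MulEquiv.refl _⟩⟩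
  have h1 : Function.Injective (algebraMap (ZMod 256) H) := Quaternion.coe_injective
  exact (charP_of_injective_ringHom h1 256)

/-- The unit group of the ring of quaternions over `ℤ/256`. -/
theorem result :
    Nat.card (Quaternion (ZMod 256))ˣ = 2 ^ 31 ∧
    Indecomposable (Quaternion (ZMod 256))ˣ ∧
    Realizable (Quaternion (ZMod 256))ˣ (2 ^ 8) ∧
    ¬ Realizable (Quaternion (ZMod 256))ˣ 2 :=
  ⟨card_units, indecomposable, realizable, not_realizable⟩

end Pool.Agent.Results.MP_aafbbc_al.QuaternionUnits
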